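import Mathlib
import Pool.Agent.Lib.helper27.RealClosure

set_option autoImplicit false

namespace Pool.Agent.Results.MP_5a426c_al.RealClosureEq

open Pool.Agent.Lib.helper27.RealClosure

/-- The linear extension of a permutation `σ` to the permutation module `Ω →₀ ℝ`:
the basis vector of `x` goes to the basis vector of `σ x`. -/
noncomputable def act {Ω : Type} (σ : Equiv.Perm Ω) : (Ω →₀ ℝ) →ₗ[ℝ] (Ω →₀ ℝ) :=
  Finsupp.lmapDomain ℝ ℝ σ

/-- The real closure: permutations mapping every `G`-invariant subspace onto itself. -/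
def realClosure {Ω : Type} (G : Subgroup (Equiv.Perm Ω)) : Set (Equiv.Perm Ω) :=
  {σ | ∀ W : Submodule ℝ (Ω →₀ ℝ), (∀ g ∈ G, ∀ w ∈ W, act g w ∈ W) → W.map (act σ) = W}

/-- The `G`-orbit of a subset `s` of `Ω`. -/
def setOrbit {Ω : Type} (G : Subgroup (Equiv.Perm Ω)) (s : Set Ω) : Set (Set Ω) :=
  {t | ∃ g ∈ G, t = (g : Ω → Ω) '' s}

/-- The strong 2-closure: permutations mapping each `G`-orbit of 2-element subsets onto itself. -/
def strongClosure {Ω : Type} (G : Subgroup (Equiv.Perm Ω)) : Set (Equiv.Perm Ω) :=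
  {σ | ∀ s : Set Ω, s.ncard = 2 →
    (fun t : Set Ω => (σ : Ω → Ω) '' t) '' setOrbit G s = setOrbit G s}

theorem act_apply {Ω : Type} (σ : Equiv.Perm Ω) (w : Ω →₀ ℝ) (x : Ω) :
    act σ w x = w (σ⁻¹ x) := by
  have := Finsupp.mapDomain_equiv_apply (f := σ) w x
  exact this

theorem mem_real_iff {Ω : Type} [Fintype Ω] (G : Subgroup (Equiv.Perm Ω)) (σ : Equiv.Perm Ω) :
    σ ∈ realClosure G ↔ ∀ a b : Ω, ∃ g ∈ G, ({g a, g b} : Set Ω) = {σ a, σ b} := by
  let e : (Ω →₀ ℝ) ≃ₗ[ℝ] (Ω → ℝ) := Finsupp.linearEquivFunOnFinite ℝ ℝ Ω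
  constructor
  · intro h
    apply pairs_of_closure G σ
    intro W hW f hf
    have h1 := h (W.comap e.toLinearMap) (by
      intro g hg w hw
      have := hW g⁻¹ (G.inv_mem hg) (e w) hw
      show e (act g w) ∈ W
      have h2 : e (act g w) = fun x => (e w) (g⁻¹ x) := by
        funext x; exact act_apply g w x
      rw [h2]; exact this)
    have h2 : e.symm f ∈ (W.comap e.toLinearMap).map (act σ) := by
      rw [h1]; show e (e.symm f) ∈ W; simpa using hf
    obtain ⟨w, hw, hwe⟩ := h2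
    have h3 : (fun x => f (σ x)) = e w := by
      funext x
      have := act_apply σ w (σ x)
      rw [hwe] at this
      simpa [e] using this
    rw [h3]; exact hw
  · intro h W hW
    have hW' : ∀ g ∈ G, ∀ f ∈ W.map e.toLinearMap, (fun x => f (g x)) ∈ W.map e.toLinearMap := by
      rintro g hg f ⟨w, hw, rfl⟩
      refine ⟨act g⁻¹ w, hW _ (G.inv_mem hg) w hw, ?_⟩
      funext x
      exact act_apply g⁻¹ w x
    have hinv : ∀ a b : Ω, ∃ g ∈ G, ({g a, g b} : Set Ω) = {σ⁻¹ a, σ⁻¹ b} := by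
      intro a b
      obtain ⟨g, hg, hs⟩ := h (σ⁻¹ a) (σ⁻¹ b)
      refine ⟨g⁻¹, G.inv_mem hg, ?_⟩
      have := congrArg (Set.image (g⁻¹ : Equiv.Perm Ω)) hs
      simpa [Set.image_pair] using this.symm
    have key : ∀ τ : Equiv.Perm Ω, (∀ a b : Ω, ∃ g ∈ G, ({g a, g b} : Set Ω) = {τ a, τ b}) →
        ∀ w ∈ W, act τ⁻¹ w ∈ W := by
      intro τ hτ w hw
      obtain ⟨u, hu, hue⟩ := closure_of_pairs G τ hτ _ hW' (e w) ⟨w, hw, rfl⟩
      have : act τ⁻¹ w = u := by
        ext x
        rw [act_apply]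
        exact (congrFun hue x).symm
      rw [this]; exact hu
    apply le_antisymm
    · rintro _ ⟨w, hw, rfl⟩
      exact key σ⁻¹ hinv w hw
    · intro w hw
      refine ⟨act σ⁻¹ w, key σ h w hw, ?_⟩
      ext x
      rw [act_apply, act_apply]; simp

theorem mem_strong_iff {Ω : Type} [Fintype Ω] (G : Subgroup (Equiv.Perm Ω)) (σ : Equiv.Perm Ω) :
    σ ∈ strongClosure G ↔ ∀ a b : Ω, a ≠ b → ∃ g ∈ G, ({g a, g b} : Set Ω) = {σ a, σ b} := by
  constructor
  · intro h a b hab
    have h1 := h {a, b} (Set.ncard_pair hab)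
    have h2 : (σ : Ω → Ω) '' {a, b} ∈ setOrbit G {a, b} := by
      rw [← h1]
      exact ⟨{a, b}, ⟨1, G.one_mem, by simp⟩, rfl⟩
    obtain ⟨g, hg, hs⟩ := h2
    exact ⟨g, hg, by simpa [Set.image_pair] using hs.symm⟩
  · intro h s hs
    obtain ⟨a, b, hab, rfl⟩ := Set.ncard_eq_two.mp hs
    ext t
    constructor
    · rintro ⟨_, ⟨k, hk, rfl⟩, rfl⟩
      obtain ⟨g, hg, hs⟩ := h (k a) (k b) (fun e => hab (k.injective e))
      exact ⟨g * k, G.mul_mem hg hk, by simpa [Set.image_pair] using hs.symm⟩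
    · rintro ⟨k, hk, rfl⟩
      obtain ⟨g, hg, hs⟩ := h (σ⁻¹ (k a)) (σ⁻¹ (k b))
        (fun e => hab (k.injective (σ⁻¹.injective e)))
      refine ⟨{σ⁻¹ (k a), σ⁻¹ (k b)}, ⟨g⁻¹ * k, G.mul_mem (G.inv_mem hg) hk, ?_⟩, ?_⟩
      · have := congrArg (Set.image (g⁻¹ : Equiv.Perm Ω)) hs
        simpa [Set.image_pair] using this
      · simp [Set.image_pair]

/-- The real closure equals the strong 2-closure, with the single exception of the trivial
group on two points. -/
theorem result (Ω : Type) [Fintype Ω] (G : Subgroup (Equiv.Perm Ω)) :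
    realClosure G = strongClosure G ↔ ¬ (Fintype.card Ω = 2 ∧ G = ⊥) := by
  classical
  constructor
  · rintro h ⟨h2, rfl⟩
    obtain ⟨a, b, hab, hu⟩ := Finset.card_eq_two.mp (show (Finset.univ : Finset Ω).card = 2 from h2)
    have hall : ∀ x : Ω, x = a ∨ x = b := by
      intro x
      have : x ∈ ({a, b} : Finset Ω) := hu ▸ Finset.mem_univ x
      simpa using this
    have h1 : Equiv.swap a b ∈ strongClosure (⊥ : Subgroup (Equiv.Perm Ω)) := by
      rw [mem_strong_iff]
      intro x y hxy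
      refine ⟨1, Subgroup.one_mem _, ?_⟩
      rcases hall x with rfl | rfl <;> rcases hall y with rfl | rfl
      · exact absurd rfl hxy
      · simp [Set.pair_comm]
      · simp [Set.pair_comm]
      · exact absurd rfl hxy
    rw [← h, mem_real_iff] at h1
    obtain ⟨g, hg, hs⟩ := h1 a a
    rw [Subgroup.mem_bot] at hg
    subst hg
    simp at hs
    exact hab hs
  · intro h
    ext σ
    rw [mem_real_iff, mem_strong_iff]
    refine ⟨fun h1 a b _ => h1 a b, fun h1 => ?_⟩
    by_cases h3 : 3 ≤ Fintype.card Ω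
    · exact points_of_pairs h3 G σ h1
    intro a b
    by_cases hab : a = b
    swap
    · exact h1 a b hab
    subst hab
    suffices hs : ∃ g ∈ G, g a = σ a by
      obtain ⟨g, hg, hs⟩ := hs
      exact ⟨g, hg, by rw [hs]⟩
    by_cases hσ : σ a = a
    · exact ⟨1, G.one_mem, hσ.symm⟩
    have hall : ∀ x : Ω, x = a ∨ x = σ a := by
      intro x
      by_contra hx
      push Not at hx
      apply h3
      have : ({x, a, σ a} : Finset Ω).card = 3 :=
        Finset.card_eq_three.mpr ⟨x, a, σ a, hx.1, hx.2, Ne.symm hσ, rfl⟩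
      rw [← this]
      exact Finset.card_le_univ _
    have h2 : Fintype.card Ω = 2 := by
      have : ({a, σ a} : Finset Ω).card = 2 := Finset.card_pair (Ne.symm hσ)
      have h4 := Finset.card_le_univ ({a, σ a} : Finset Ω)
      omega
    have hG : G ≠ ⊥ := fun e => h ⟨h2, e⟩
    obtain ⟨⟨g, hg⟩, hg1⟩ := Subgroup.ne_bot_iff_exists_ne_one.mp hG
    refine ⟨g, hg, ?_⟩
    rcases hall (g a) with h5 | h5
    · exfalso
      apply hg1
      ext x
      show g x = x
      rcases hall x with rfl | rfl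
      · exact h5
      · rcases hall (g (σ a)) with h6 | h6
        · exact absurd (g.injective (h6.trans h5.symm)) hσ
        · exact h6
    · exact h5

end Pool.Agent.Results.MP_5a426c_al.RealClosureEq
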